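import Pool.Agent.H53.RedClaw
import Pool.Agent.H53.Fpt

/-!
# A pair violating Q1 (a)

For the claw `K_{1,3}` and the co-claw `K_3 ∪ K_1`, both single contraction problems are
W[2]-hard, but contraction to graphs avoiding both is fixed-parameter tractable.
-/

open Pool.Agent.H53 in
theorem Pool.Agent.Results.MP_09c861_lc.ClawCoclaw.result :
    W2Hard (FreeContraction claw) ∧ W2Hard (FreeContraction coclaw) ∧
      FPT (FreeContraction₂ claw coclaw) :=
  ⟨claw_hard, coclaw_hard, pair_FPT⟩
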